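import Pool.Agent.Helper38K9.ST.Asm

/-!
# Regular graphs have exponentially many non-isomorphic spanning trees

For every `d ≥ 3` there is `c > 0` such that every connected `d`-regular graph on `n` vertices has at
least `exp (c n)` isomorphism classes of spanning trees.

Sketch of the proof (the paper proof is due to helper89).

(A) Choose a large set `S` of vertices at pairwise large distance and, among the rooted spanning
trees which contain the full stars at `S`, one with the largest sum of depths. Then a positive
proportion of the vertices are leaves `u` with two `G`-neighbours `x u`, `y u` which differ in depth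
or in the number of their children; choose a well-separated set `U` of `≥ c₀ n` such leaves. For
`b ∈ {0,1}^U` let `T_b` be the spanning tree in which `u` is attached to `x u` or to `y u`.

(B) Fix a large constant `K`, and cut the tree without `U` into cells: a vertex with a subtree of size
`≥ K` together with the small subtrees that hang on it. The number of the leaves attached to the
vertices with a given (cell, depth, number of children) takes many values; an isomorphism class
determines all these numbers up to `n · A^(n/K)` possibilities (an isomorphism, restricted to the
vertices with large subtrees, is determined by the images at the at most `n/K` branch vertices).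

(C) For small `n` it is enough to find two non-isomorphic spanning trees.
-/

set_option autoImplicit false

namespace Pool.Agent.Results.MP_b146e7_co.ExponentiallyMany

/-- The spanning trees of `G`: the subgraphs `T` of `G` on the same vertex set which are trees. -/
def SpanningTree {V : Type} (G : SimpleGraph V) : Type :=
  {T : SimpleGraph V // T ≤ G ∧ T.IsTree}

/-- Two spanning trees are identified when they are isomorphic as abstract graphs. -/
def isoSetoid {V : Type} (G : SimpleGraph V) : Setoid (SpanningTree G) where
  r T T' := Nonempty (T.1 ≃g T'.1)
  iseqv := ⟨fun _ => ⟨RelIso.refl _⟩, fun ⟨e⟩ => ⟨e.symm⟩, fun ⟨e⟩ ⟨f⟩ => ⟨e.trans f⟩⟩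

/-- `|T_unlabeled(G)|`, the number of isomorphism classes of spanning trees of `G`. -/
noncomputable def numTrees {V : Type} (G : SimpleGraph V) : ℕ :=
  Nat.card (Quotient (isoSetoid G))

/-- For every `d ≥ 3` there is `c > 0` such that every connected `d`-regular graph on `n` vertices has
at least `exp (c n)` isomorphism classes of spanning trees. -/
theorem result (d : ℕ) (hd : 3 ≤ d) :
    ∃ c : ℝ, 0 < c ∧ ∀ (V : Type) [Finite V] (G : SimpleGraph V), G.Connected →
      (∀ v : V, (G.neighborSet v).ncard = d) →
        Real.exp (c * (Nat.card V : ℝ)) ≤ (numTrees G : ℝ) := by
  obtain ⟨c, hc, h⟩ := Pool.Agent.Helper38K9.ST.final d hd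
  refine ⟨c, hc, ?_⟩
  intro V _ G hconn hreg
  have := Fintype.ofFinite V
  rw [Nat.card_eq_fintype_card]
  refine h V G hconn ?_
  intro v
  rw [← hreg v, ← Set.ncard_coe_finset]
  congr 1
  ext w
  rw [Finset.mem_coe, Pool.Agent.Helper38K9.ST.mem_N]
  rfl

end Pool.Agent.Results.MP_b146e7_co.ExponentiallyMany
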